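import Pool.Agent.H23.DF.TargetsG

/-!
# (P1) Poisson summation, from (PA)
-/

set_option autoImplicit false

open NumberField NumberField.InfinitePlace NumberField.Units
  NumberField.Units.dirichletUnitTheorem MeasureTheory Set Filter Complex
open scoped nonZeroDivisors ENNReal

namespace Pool.Agent.H34.DF.P1

open Pool.Agent.H23.DF
open Pool.Agent.H25.HK Pool.Agent.H23.LB Pool.Agent.H23.LC
open Pool.Agent.H28.RC (Rep ft idl)
open Pool.Agent.H29.DW (dg Rl lf wv Pos Wg cpar Ci om zs rv Wt PrG IsCon)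
open Pool.Agent.H29.TC (Gn LC cq dvs AC MC)
open Pool.Agent.H31.SW (EE itg FF HD DB DS dif Pf GG G2 DD PP pF dK pz ps Tf WG)
open Pool.Agent.H31.SX (ND RK Gcd LK)
open Pool.Agent.H27.TM (Sh S4 lo Maj G3 kp El Cr Am mf Dl mc Ep Cls Spc bt th1)
open Pool.Agent.H23.DM (lg5 h5 Fq Mz cm SQ MP OQ de SpE SpG FP PhZ PY LoC Lab QB Clq)

private lemma vol_S4 : (volume S4 : ℝ≥0∞) ≠ ⊤ := by
  have h : S4 ⊆ Metric.closedBall (0 : ℂ) 8 := by
    intro s hs
    obtain ⟨h1, h2⟩ := hs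
    rw [mem_closedBall_zero_iff]
    have := Complex.norm_le_abs_re_add_abs_im s
    linarith
  exact ne_top_of_le_ne_top (measure_closedBall_lt_top).ne (measure_mono h)

private lemma meas_S4 : MeasurableSet S4 := by
  unfold S4
  exact (measurableSet_le (Complex.measurable_re.abs) measurable_const).inter
    (measurableSet_le (Complex.measurable_im.abs) measurable_const)

section

variable {K : Type} [Field K] [NumberField K]

private lemma card_le {n : ℕ} (hn : Module.finrank ℚ K = n) :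
    Fintype.card (InfinitePlace K) ≤ n := by
  rw [← hn, ← InfinitePlace.sum_mult_eq (K := K), Fintype.card_eq_sum_ones]
  exact Finset.sum_le_sum fun v _ => by
    unfold InfinitePlace.mult
    split_ifs <;> norm_num

private lemma dK_one : 1 ≤ dK K := by
  unfold dK
  have h := Int.one_le_abs (discr_ne_zero K)
  exact_mod_cast h

private lemma Nf_one {a : Ideal (𝓞 K)} (ha : a ≠ ⊥) : 1 ≤ Nf K a := by
  unfold Nf
  have h : 1 ≤ Ideal.absNorm a :=
    Nat.one_le_iff_ne_zero.2 (fun h0 => ha (Ideal.absNorm_eq_zero_iff.1 h0))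
  exact_mod_cast h

end

private lemma pref {D a b W d : ℝ} (hD : 0 ≤ D) (ha : 1 ≤ a) (hb : 1 ≤ b) (hW : 0 ≤ W)
    (hd : 1 ≤ d) : D / (a * b * Real.sqrt d) * W ≤ D / a * (W / b) := by
  have h1 : 1 ≤ Real.sqrt d := Real.one_le_sqrt.2 hd
  have ha0 : 0 < a := by linarith
  have hb0 : 0 < b := by linarith
  have hab : 0 < a * b := by positivity
  have h2 : D / (a * b * Real.sqrt d) ≤ D / (a * b) := by
    apply div_le_div_of_nonneg_left hD hab
    calc a * b = a * b * 1 := (mul_one _).symm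
      _ ≤ a * b * Real.sqrt d := mul_le_mul_of_nonneg_left h1 hab.le
  calc D / (a * b * Real.sqrt d) * W ≤ D / (a * b) * W := mul_le_mul_of_nonneg_right h2 hW
    _ = D / a * (W / b) := by field_simp

theorem pf_P1 (hPA : F_PA) (_hLN : F_LN) : F_P1 := by
  intro n q Ψ N hn hq hΨ hN
  obtain ⟨C₁, hC₁, hP⟩ := hPA n q Ψ N hn hq hΨ hN
  obtain ⟨V, hV⟩ : ∃ V : ℝ, V = (volume S4 : ℝ≥0∞).toReal := ⟨_, rfl⟩
  have hV0 : 0 ≤ V := by rw [hV]; exact ENNReal.toReal_nonneg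
  refine ⟨C₁, (1 + V) ^ n, hC₁, by positivity, ?_⟩
  intro K _ _ hK l r H F M y ω ρ G α A ι I qq E c W D B hl hl2 hr hH hF' hM hω hρ hW hα hFT hE
    hA hc hB
  obtain ⟨Q, b, hQ, hb, hmain⟩ :=
    hP K hK l r H F M y ω ρ G α A ι I qq E W D hl hl2 hr hH hF' hM hω hρ hα hFT hE hA
  obtain ⟨U, hU⟩ : ∃ F' : ι → (InfinitePlace K → ℂ) → ℂ, F' = fun i s =>
    ∑' ν : {ν : K // ν ∈ Nh H F}, b s ν * (E i ν * Ep α (Q s) (c i) ν) := ⟨_, rfl⟩
  obtain ⟨T, hT⟩ : ∃ T : Set (InfinitePlace K → ℂ), T = Set.pi univ fun _ => S4 := ⟨_, rfl⟩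
  have hFB : ∀ s, ∑ i ∈ I, ‖U i s‖ ≤ B := by
    intro s
    rw [hU]
    exact hB (Q s) (b s) (hQ s) (hb s)
  have hB0 : 0 ≤ B := (Finset.sum_nonneg fun i _ => norm_nonneg _).trans (hFB 0)
  have hD0 : 0 ≤ DD M y := by
    unfold DD
    exact div_nonneg (Real.exp_pos _).le (by exact_mod_cast FractionalIdeal.absNorm_nonneg M)
  obtain ⟨Z, hZ⟩ : ∃ Z : ℝ, Z = DD M y / Nf K l * (W / Nf K H) := ⟨_, rfl⟩
  have hl1 := Nf_one hl
  have hH1 := Nf_one hH
  have hZ0 : 0 ≤ Z := by rw [hZ]; positivity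
  have hint : ∀ i ∈ I, IntegrableOn (U i) T := by
    intro i hi
    rw [hU, hT]
    exact (hmain i hi (c i) (hc i hi)).1
  have hOD : ∀ i ∈ I, ‖OQ q Ψ A (((l * r : Ideal (𝓞 K)) : FI K) * M) y ω ρ (qq i) G
      (c i)‖ ≤ Z * ∫ s in T, ‖U i s‖ := by
    intro i hi
    have hpos : 0 ≤ DD M y / (Nf K l * Nf K H * Real.sqrt (dK K)) * W := by positivity
    rw [(hmain i hi (c i) (hc i hi)).2, norm_mul, Complex.norm_real, Real.norm_of_nonneg hpos]
    have h1 : DD M y / (Nf K l * Nf K H * Real.sqrt (dK K)) * W ≤ Z := by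
      rw [hZ]
      exact pref hD0 hl1 hH1 hW dK_one
    have h2 : ‖∫ s in Set.pi univ fun _ => S4, ∑' ν : {ν : K // ν ∈ Nh H F},
        b s ν * (E i ν * Ep α (Q s) (c i) ν)‖ ≤ ∫ s in T, ‖U i s‖ := by
      rw [hT, hU]
      exact norm_integral_le_integral_norm _
    exact mul_le_mul h1 h2 (norm_nonneg _) hZ0
  have hTm : MeasurableSet T := by
    rw [hT]
    exact MeasurableSet.univ_pi fun _ => meas_S4
  have hTv : volume T = (volume S4 : ℝ≥0∞) ^ Fintype.card (InfinitePlace K) := by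
    rw [hT, volume_pi_pi, Finset.prod_const, Finset.card_univ]
  have hTf : volume T ≠ ⊤ := by
    rw [hTv]
    exact ENNReal.pow_ne_top vol_S4
  have hTr : (volume T).toReal ≤ (1 + V) ^ n := by
    rw [hTv, ENNReal.toReal_pow, ← hV]
    calc V ^ Fintype.card (InfinitePlace K) ≤ (1 + V) ^ Fintype.card (InfinitePlace K) := by
          gcongr
          linarith
      _ ≤ (1 + V) ^ n := pow_le_pow_right₀ (by linarith) (card_le hK)
  have hsum : ∑ i ∈ I, ∫ s in T, ‖U i s‖ ≤ B * (1 + V) ^ n := by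
    rw [← integral_finsetSum I fun i hi => (hint i hi).norm]
    have h1 : ∫ s in T, ∑ i ∈ I, ‖U i s‖ ≤ ∫ _ in T, B := by
      refine integral_mono (integrable_finsetSum I fun i hi => (hint i hi).norm)
        (integrableOn_const hTf) fun s => hFB s
    refine h1.trans ?_
    rw [setIntegral_const, smul_eq_mul, mul_comm]
    exact mul_le_mul_of_nonneg_left hTr hB0
  calc ∑ i ∈ I, ‖OQ q Ψ A (((l * r : Ideal (𝓞 K)) : FI K) * M) y ω ρ (qq i) G (c i)‖
      ≤ ∑ i ∈ I, Z * ∫ s in T, ‖U i s‖ := Finset.sum_le_sum hOD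
    _ = Z * ∑ i ∈ I, ∫ s in T, ‖U i s‖ := by rw [Finset.mul_sum]
    _ ≤ Z * (B * (1 + V) ^ n) := mul_le_mul_of_nonneg_left hsum hZ0
    _ = (1 + V) ^ n * (DD M y / Nf K l * (W / Nf K H * B)) := by rw [hZ]; ring

end Pool.Agent.H34.DF.P1
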