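import Pool.Agent.H23.DF.TargetsG
import Pool.Agent.H49.DM.PA

/-!
# (SO) the sums over the differences after the removal of the divisors
-/

set_option autoImplicit false

open NumberField NumberField.InfinitePlace NumberField.Units
  NumberField.Units.dirichletUnitTheorem MeasureTheory Set Filter Complex
open scoped nonZeroDivisors ENNReal

namespace Pool.Agent.H34.DF.SO

open Pool.Agent.H23.DF
open Pool.Agent.H25.HK Pool.Agent.H23.LB Pool.Agent.H23.LC
open Pool.Agent.H28.RC (Rep ft idl)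
open Pool.Agent.H29.DW (dg Rl lf wv Pos Wg cpar Ci om zs rv Wt PrG IsCon)
open Pool.Agent.H29.TC (Gn LC cq dvs AC MC)
open Pool.Agent.H31.SW (EE itg FF HD DB DS dif Pf GG G2 DD PP pF dK pz ps Tf WG)
open Pool.Agent.H31.SX (ND RK Gcd LK)
open Pool.Agent.H27.TM (Sh S4 lo Maj G3 kp El Cr Am mf Dl mc Ep Cls Spc bt th1)
open Pool.Agent.H23.DM (lg5 h5 Fq Mz cm SQ MP OQ de SpE SpG FP PhZ PY LoC Lab QB Clq)
open Pool.Agent.H49.DM.PA (coset_sum mem_of_two)

section

variable {K : Type} [Field K] [NumberField K]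

omit [NumberField K] in
private lemma le_of_dvs {k e : Ideal (𝓞 K)} (h : e ∈ dvs K k) : k ≤ e := by
  classical
  unfold dvs at h
  split_ifs at h with h1
  · exact h1.mem_toFinset.1 h
  · exact absurd h (Finset.notMem_empty e)

private lemma sub_le {g : Ideal (𝓞 K)} {M : FI K} {x : K} (hx : x ∈ (g : FI K) * M) : x ∈ M := by
  have h1 : (g : FI K) * M ≤ 1 * M := mul_le_mul' FractionalIdeal.coeIdeal_le_one le_rfl
  have h2 := h1 hx
  rwa [one_mul] at h2

/-- the product of the test functions vanishes off a finite set of lattice points -/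
private lemma fin_pF (hCU : Pool.Agent.H31.SW.W_CU) {q Ψ : Bool → ℂ → ℂ} (hq : Pf q) {M : FI K}
    (hM : M ≠ 0) (y : InfinitePlace K → ℝ) {ω : InfinitePlace K → ℂ} (hω : Pos ω)
    (G : InfinitePlace K → ℝ) (c b : InfinitePlace K → ℂ) :
    {x : {x : K // x ∈ M} | pF (fun v => G3 (q (rv v)) (Ψ (rv v)) (G v) (c v) (b v)) y ω
      x.1 ≠ 0}.Finite := by
  obtain ⟨C, _, hC⟩ := hCU (Module.finrank ℚ K) Module.finrank_pos
  have h1 := (hC K rfl M y ω (fun _ => 0) (fun _ => 2) hM hω (fun _ => by norm_num)).1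
  refine Set.Finite.of_finite_image (f := Subtype.val) (h1.subset ?_)
    (Subtype.val_injective.injOn)
  rintro _ ⟨x, hx, rfl⟩
  refine ⟨x.2, fun v => ?_⟩
  rw [sub_zero]
  by_contra hv
  rw [not_le] at hv
  refine hx ?_
  unfold pF
  exact Finset.prod_eq_zero (Finset.mem_univ v)
    (Pool.Agent.H13.TM.G3_zero (hq.2 (rv v)) _ _ _ _ hv)

open scoped Classical in
/-- sums over the points of a sublattice -/
private lemma sub_sum {g : Ideal (𝓞 K)} {M : FI K} (f : K → ℂ) :
    ∑' x : {x : K // x ∈ M}, (if (x : K) ∈ (g : FI K) * M then f x else 0) =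
      ∑' x : {x : K // x ∈ (g : FI K) * M}, f x := by
  let i : {x : K // x ∈ (g : FI K) * M} → {x : K // x ∈ M} := fun x => ⟨x.1, sub_le x.2⟩
  have hi : Function.Injective i := fun a b hab =>
    Subtype.ext (congrArg Subtype.val hab : (i a).1 = (i b).1)
  have h := hi.tsum_eq (f := fun x : {x : K // x ∈ M} =>
    if (x : K) ∈ (g : FI K) * M then f x else 0) ?_
  · rw [← h]
    refine tsum_congr fun x => ?_
    exact if_pos x.2
  · intro x hx
    by_contra hn
    refine hx ?_
    have h2 : ¬ ((x : K) ∈ (g : FI K) * M) := fun h3 => hn ⟨⟨x.1, h3⟩, rfl⟩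
    exact if_neg h2

end

open scoped Classical in
theorem pf_SO (hCU : Pool.Agent.H31.SW.W_CU) : F_SO := by
  intro q Ψ hq hΨ K _ _ l r se M y ω ρ G c A ρg μ a ag' hl hl2 hr hse hlr h2se hM hω hρ hA hδ
    hg hid
  -- the divisors
  have hgf : ∀ g ∈ dvs K se, ∃ f, se = g * f := by
    intro g hg'
    obtain ⟨f, hf⟩ := Ideal.dvd_iff_le.2 (le_of_dvs hg')
    exact ⟨f, hf⟩
  have hδM : ∀ δ ∈ A, δ ∈ M := fun δ h => mem_of_two hl2 (hδ δ h)
  have hδg : ∀ g ∈ dvs K se, ∀ δ ∈ A, δ ∈ (g : FI K) * M := by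
    intro g hg' δ h
    obtain ⟨f, hf⟩ := hgf g hg'
    refine mem_of_two (e := f) hl2 ?_
    have h1 := hδ δ h
    have h2 : ((l * se : Ideal (𝓞 K)) : FI K) * M =
        ((l * f : Ideal (𝓞 K)) : FI K) * ((g : FI K) * M) := by
      rw [hf]
      push_cast
      ring
    rwa [h2] at h1
  obtain ⟨P, hP⟩ : ∃ P : K → K → ℂ, P = fun δ x =>
    pF (fun v => G3 (q (rv v)) (Ψ (rv v)) (G v) (c v) (wv v δ y ω)) y ω x := ⟨_, rfl⟩
  have hfin : ∀ δ, {x : {x : K // x ∈ M} | P δ x.1 ≠ 0}.Finite := by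
    intro δ
    rw [hP]
    exact fin_pF hCU hq hM y hω G c _
  -- the identity at one half difference
  have key : ∀ δ ∈ A, ∑' x : {x : K // x ∈ M}, cm l r M ρ δ a x * P δ x =
      ∑ g ∈ dvs K se, μ g * ∑' x : {x : K // x ∈ (g : FI K) * M},
        cm l r ((g : FI K) * M) (ρg g) δ (ag' g) x * P δ x := by
    intro δ hδA
    have h1 : ∀ g ∈ dvs K se, Summable fun x : {x : K // x ∈ M} => μ g *
        (if (x : K) ∈ (g : FI K) * M then
          cm l r ((g : FI K) * M) (ρg g) δ (ag' g) x * P δ x else 0) := by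
      intro g _
      refine summable_of_hasFiniteSupport ((hfin δ).subset ?_)
      intro x hx h0
      refine hx ?_
      simp only [h0, mul_zero, ite_self]
    calc ∑' x : {x : K // x ∈ M}, cm l r M ρ δ a x * P δ x
        = ∑' x : {x : K // x ∈ M}, ∑ g ∈ dvs K se, μ g *
          (if (x : K) ∈ (g : FI K) * M then
            cm l r ((g : FI K) * M) (ρg g) δ (ag' g) x * P δ x else 0) := by
          refine tsum_congr fun x => ?_
          rw [hid δ hδA x.1 x.2, Finset.sum_mul]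
          refine Finset.sum_congr rfl fun g _ => ?_
          rw [mul_assoc]
          congr 1
          split_ifs
          · rfl
          · exact zero_mul _
      _ = ∑ g ∈ dvs K se, ∑' x : {x : K // x ∈ M}, μ g *
          (if (x : K) ∈ (g : FI K) * M then
            cm l r ((g : FI K) * M) (ρg g) δ (ag' g) x * P δ x else 0) :=
          Summable.tsum_finsetSum h1
      _ = _ := by
          refine Finset.sum_congr rfl fun g _ => ?_
          rw [tsum_mul_left, sub_sum (fun x => cm l r ((g : FI K) * M) (ρg g) δ (ag' g) x * P δ x)]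
  -- the sums over the half differences
  have hO : OQ q Ψ A (((l * r : Ideal (𝓞 K)) : FI K) * M) y ω ρ a G c =
      ∑ δ ∈ hA.toFinset, ∑' x : {x : K // x ∈ M}, cm l r M ρ δ a x * P δ x := by
    unfold OQ
    rw [finsum_mem_eq_finite_toFinset_sum _ hA]
    refine Finset.sum_congr rfl fun δ h => ?_
    rw [hP]
    exact coset_sum hρ (hδM δ (hA.mem_toFinset.1 h)) a _ y ω
  have hOg : ∀ g ∈ dvs K se, OQ q Ψ A (((l * r : Ideal (𝓞 K)) : FI K) * ((g : FI K) * M)) y ω
      (ρg g) (ag' g) G c = ∑ δ ∈ hA.toFinset, ∑' x : {x : K // x ∈ (g : FI K) * M},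
        cm l r ((g : FI K) * M) (ρg g) δ (ag' g) x * P δ x := by
    intro g hg'
    obtain ⟨f, hf⟩ := hgf g hg'
    unfold OQ
    rw [finsum_mem_eq_finite_toFinset_sum _ hA]
    refine Finset.sum_congr rfl fun δ h => ?_
    rw [hP]
    exact coset_sum (hg g f hf).1 (hδg g hg' δ (hA.mem_toFinset.1 h)) (ag' g) _ y ω
  have hsum : OQ q Ψ A (((l * r : Ideal (𝓞 K)) : FI K) * M) y ω ρ a G c =
      ∑ g ∈ dvs K se, μ g * OQ q Ψ A (((l * r : Ideal (𝓞 K)) : FI K) * ((g : FI K) * M)) y ω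
        (ρg g) (ag' g) G c := by
    rw [hO, Finset.sum_congr rfl fun δ h => key δ (hA.mem_toFinset.1 h), Finset.sum_comm]
    refine Finset.sum_congr rfl fun g hg' => ?_
    rw [hOg g hg', Finset.mul_sum]
  rw [hsum]
  refine (norm_sum_le _ _).trans (Finset.sum_le_sum fun g hg' => ?_)
  obtain ⟨f, hf⟩ := hgf g hg'
  rw [norm_mul]
  exact mul_le_of_le_one_left (norm_nonneg _) (hg g f hf).2

end Pool.Agent.H34.DF.SO
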